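import Pool.Agent.U674.TI.Iso
import Pool.Agent.U181.TG.K0
import Pool.Agent.Q32.DP.FREE

/-!
# Stable freeness
-/

set_option autoImplicit false

namespace Pool.Agent.U674.TI

open MonoidAlgebra Monoid.Coprod Matrix Pool.Agent.U181.TG

/-- the module is stably free -/
def SF (A : Type) [Ring A] (P : Type) [AddCommGroup P] [Module A P] : Prop :=
  ∃ n m : ℕ, Nonempty ((P × (Fin n → A)) ≃ₗ[A] (Fin m → A))

section

variable {A : Type} [Ring A]

theorem SF.equiv {P Q : Type} [AddCommGroup P] [Module A P] [AddCommGroup Q] [Module A Q]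
    (e : P ≃ₗ[A] Q) (h : SF A P) : SF A Q := by
  obtain ⟨n, m, ⟨f⟩⟩ := h
  exact ⟨n, m, ⟨(LinearEquiv.prodCongr e.symm (LinearEquiv.refl A _)).trans f⟩⟩

theorem sumE (q m : ℕ) : Nonempty (((Fin q → A) × (Fin m → A)) ≃ₗ[A] (Fin (q + m) → A)) :=
  ⟨(LinearEquiv.sumArrowLequivProdArrow (Fin q) (Fin m) A A).symm.trans
    (LinearEquiv.funCongrLeft A A finSumFinEquiv.symm)⟩

theorem SF.prod_iff {P : Type} [AddCommGroup P] [Module A P] (q : ℕ) :
    SF A (P × (Fin q → A)) ↔ SF A P := by
  constructor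
  · rintro ⟨n, m, ⟨f⟩⟩
    obtain ⟨g⟩ := sumE (A := A) q n
    exact ⟨q + n, m, ⟨(LinearEquiv.prodCongr (LinearEquiv.refl A P) g.symm).trans
      ((LinearEquiv.prodAssoc A P (Fin q → A) (Fin n → A)).symm.trans f)⟩⟩
  · rintro ⟨n, m, ⟨f⟩⟩
    obtain ⟨g⟩ := sumE (A := A) q n
    obtain ⟨g'⟩ := sumE (A := A) q m
    refine ⟨n, q + m, ⟨?_⟩⟩
    -- P × A^q × A^n ≃ A^q × (P × A^n)
    have e1 : ((P × (Fin q → A)) × (Fin n → A)) ≃ₗ[A] ((Fin q → A) × (P × (Fin n → A))) :=
      (LinearEquiv.prodCongr (LinearEquiv.prodComm A P (Fin q → A)) (LinearEquiv.refl A _)).trans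
        (LinearEquiv.prodAssoc A (Fin q → A) P (Fin n → A))
    exact e1.trans ((LinearEquiv.prodCongr (LinearEquiv.refl A _) f).trans g')

/-- the row space of a matrix -/
abbrev RowSp {n : ℕ} (E : Matrix (Fin n) (Fin n) A) : Submodule A (Fin n → A) :=
  LinearMap.range E.toLinearMapRight'

theorem idemFree_iff {n : ℕ} (E : Matrix (Fin n) (Fin n) A) (hE : E * E = E) :
    IdemFree E ↔ SF A (RowSp E) := by
  let f : (Fin n → A) →ₗ[A] (Fin n → A) := E.toLinearMapRight'
  have hff : f ∘ₗ f = f := by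
    change E.toLinearMapRight' ∘ₗ E.toLinearMapRight' = E.toLinearMapRight'
    rw [← Matrix.toLinearMapRight'_mul, hE]
  let s : (Fin n → A) →ₗ[A] LinearMap.range f := f.rangeRestrict
  let i : LinearMap.range f →ₗ[A] (Fin n → A) := (LinearMap.range f).subtype
  have his : i ∘ₗ s = f := by
    apply LinearMap.ext
    intro v
    rfl
  have hsi : s ∘ₗ i = LinearMap.id := by
    apply LinearMap.ext
    rintro ⟨_, v, rfl⟩
    apply Subtype.ext
    exact congrArg (fun g : (Fin n → A) →ₗ[A] (Fin n → A) => g v) hff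
  have h3 : ∀ w, s (i w) = w := fun w => congrArg (fun g => g w) hsi
  constructor
  · rintro ⟨k, m, X, Y, hXY, hYX⟩
    let T := LinearEquiv.sumArrowLequivProdArrow (Fin n) (Fin k) A A
    have hb := blk (k := k) E
    rw [← hXY, Matrix.toLinearMapRight'_mul] at hb
    have hb' : ∀ v, Y.toLinearMapRight' (X.toLinearMapRight' v) =
        T.symm (LinearMap.prodMap (i ∘ₗ s) LinearMap.id (T v)) := fun v => by
      rw [his]
      exact (congrArg (fun g => g v) hb).symm
    have hY : ∀ v, X.toLinearMapRight' (Y.toLinearMapRight' v) = v := by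
      intro v
      rw [← Matrix.toLinearMapRight'_mul_apply, hYX]
      simp
    refine ⟨k, m, ⟨LinearEquiv.ofLinearMap
      (X.toLinearMapRight' ∘ₗ T.symm.toLinearMap ∘ₗ LinearMap.prodMap i LinearMap.id)
      (LinearMap.prodMap s LinearMap.id ∘ₗ T.toLinearMap ∘ₗ Y.toLinearMapRight') ?_ ?_⟩⟩
    · apply LinearMap.ext
      intro v
      have h4 : T.symm (LinearMap.prodMap (i ∘ₗ s) LinearMap.id (T (Y.toLinearMapRight' v))) =
          Y.toLinearMapRight' v := by
        rw [← hb', hY]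
      have h5 : LinearMap.prodMap i LinearMap.id (LinearMap.prodMap s LinearMap.id
          (T (Y.toLinearMapRight' v))) =
          LinearMap.prodMap (i ∘ₗ s) LinearMap.id (T (Y.toLinearMapRight' v)) := rfl
      change X.toLinearMapRight' (T.symm (LinearMap.prodMap i LinearMap.id
        (LinearMap.prodMap s LinearMap.id (T (Y.toLinearMapRight' v))))) = v
      rw [h5, h4, hY]
    · apply LinearMap.ext
      rintro ⟨x, w⟩
      change LinearMap.prodMap s LinearMap.id (T (Y.toLinearMapRight' (X.toLinearMapRight'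
        (T.symm (LinearMap.prodMap i LinearMap.id (x, w)))))) = (x, w)
      rw [hb', LinearEquiv.apply_symm_apply, LinearEquiv.apply_symm_apply]
      simp only [LinearMap.prodMap_apply, LinearMap.id_apply, LinearMap.comp_apply, h3]
  · rintro ⟨k, m, ⟨e⟩⟩
    let T := LinearEquiv.sumArrowLequivProdArrow (Fin n) (Fin k) A A
    let a : (Fin n ⊕ Fin k → A) →ₗ[A] (Fin m → A) :=
      e.toLinearMap ∘ₗ (LinearMap.prodMap s LinearMap.id) ∘ₗ T.toLinearMap
    let b : (Fin m → A) →ₗ[A] (Fin n ⊕ Fin k → A) :=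
      T.symm.toLinearMap ∘ₗ (LinearMap.prodMap i LinearMap.id) ∘ₗ e.symm.toLinearMap
    have hab : a ∘ₗ b = LinearMap.id := by
      apply LinearMap.ext
      intro v
      simp [a, b, h3]
    have hba : b ∘ₗ a = (Matrix.fromBlocks E 0 0 (1 : Matrix (Fin k) (Fin k) A)).toLinearMapRight' := by
      rw [← blk]
      apply LinearMap.ext
      intro v
      simp only [a, b, LinearMap.comp_apply, LinearEquiv.coe_coe, LinearEquiv.symm_apply_apply]
      rfl
    refine ⟨k, m, a.toMatrixRight', b.toMatrixRight', ?_, ?_⟩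
    · rw [← LinearMap.toMatrixRight'_comp, hba]
      exact LinearEquiv.apply_symm_apply _ _
    · rw [← LinearMap.toMatrixRight'_comp, hab]
      exact LinearMap.toMatrixRight'_id

/-- a finitely generated projective module is the row space of an idempotent matrix -/
theorem exists_idem (P : Type) [AddCommGroup P] [Module A P] (h1 : Module.Finite A P)
    (h2 : Module.Projective A P) :
    ∃ (n : ℕ) (E : Matrix (Fin n) (Fin n) A), E * E = E ∧ Nonempty (P ≃ₗ[A] RowSp E) := by
  obtain ⟨n, p, s, _, _, hps⟩ := Module.Finite.exists_comp_eq_id_of_projective A P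
  have hps' : ∀ x, p (s x) = x := fun x => congrArg (fun g => g x) hps
  let E : Matrix (Fin n) (Fin n) A := (s ∘ₗ p).toMatrixRight'
  have hE' : E.toLinearMapRight' = s ∘ₗ p := LinearEquiv.symm_apply_apply _ _
  have hE : E * E = E := by
    change (s ∘ₗ p).toMatrixRight' * (s ∘ₗ p).toMatrixRight' = (s ∘ₗ p).toMatrixRight'
    rw [← LinearMap.toMatrixRight'_comp]
    congr 1
    apply LinearMap.ext
    intro v
    simp [hps']
  have hinj : Function.Injective s := fun a b h => by
    rw [← hps' a, ← hps' b, h]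
  have hr : LinearMap.range s = RowSp E := by
    unfold RowSp
    rw [hE']
    apply le_antisymm
    · rintro _ ⟨x, rfl⟩
      exact ⟨s x, by rw [LinearMap.comp_apply, hps']⟩
    · rintro _ ⟨x, rfl⟩
      exact ⟨p x, rfl⟩
  exact ⟨n, E, hE, ⟨(LinearEquiv.ofInjective s hinj).trans (LinearEquiv.ofEq _ _ hr)⟩⟩

/-- the row space of an idempotent matrix is projective -/
theorem rowSp_projective {n : ℕ} (E : Matrix (Fin n) (Fin n) A) (hE : E * E = E) :
    Module.Projective A (RowSp E) := by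
  let f : (Fin n → A) →ₗ[A] (Fin n → A) := E.toLinearMapRight'
  have hff : f ∘ₗ f = f := by
    change E.toLinearMapRight' ∘ₗ E.toLinearMapRight' = E.toLinearMapRight'
    rw [← Matrix.toLinearMapRight'_mul, hE]
  refine Module.Projective.of_split (LinearMap.range f).subtype f.rangeRestrict ?_
  apply LinearMap.ext
  rintro ⟨_, v, rfl⟩
  apply Subtype.ext
  exact congrArg (fun g : (Fin n → A) →ₗ[A] (Fin n → A) => g v) hff

end

variable {G : Type} [Group G] {n : ℕ} {k : Type}

theorem io_idem (E : Matrix (Fin n) (Fin n) (MonoidAlgebra ℤ G)) (hE : E * E = E) :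
    E.map (io G k) * E.map (io G k) = E.map (io G k) := by
  rw [← Matrix.map_mul, hE]

/-- stable freeness does not change under the extension to `G * F` -/
theorem idemFree_io (E : Matrix (Fin n) (Fin n) (MonoidAlgebra ℤ G)) :
    IdemFree (E.map (io G k)) ↔ IdemFree E := by
  constructor
  · intro h
    have h1 := idemFree_map (Monoid.Coprod.fst : GF G k →* G) h
    have h2 : (E.map (io G k)).map (gr ℤ (Monoid.Coprod.fst : GF G k →* G)) = E := by
      have h3 := map_map_gr (R := ℤ) (inl : G →* GF G k) (Monoid.Coprod.fst : GF G k →* G) E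
      have h4 : (Monoid.Coprod.fst : GF G k →* G).comp inl = MonoidHom.id G := by
        ext g
        simp
      rw [h4] at h3
      refine h3.trans ?_
      ext1 i j
      simp only [Matrix.map_apply, gr, MonoidAlgebra.mapDomainRingHom_id]
      rfl
    rwa [h2] at h1
  · intro h
    exact idemFree_map (inl : G →* GF G k) h

/-- free products with free groups -/
theorem torsionFree_GF (hG : ∀ g : G, IsOfFinOrder g → g = 1) :
    ∀ g : GF G k, IsOfFinOrder g → g = 1 := by
  have hA : Pool.Agent.Q32.DP.TFree G := by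
    intro g hg m hm h
    exact hg (hG g (isOfFinOrder_iff_pow_eq_one.2 ⟨m, Nat.pos_of_ne_zero hm, h⟩))
  have hB : Pool.Agent.Q32.DP.TFree (FreeGroup k) := by
    intro g hg m hm h
    exact not_isOfFinOrder_of_isMulTorsionFree hg
      (isOfFinOrder_iff_pow_eq_one.2 ⟨m, Nat.pos_of_ne_zero hm, h⟩)
  intro g hg
  obtain ⟨m, hm, h⟩ := isOfFinOrder_iff_pow_eq_one.1 hg
  by_contra hne
  exact Pool.Agent.Q32.DP.FREE.tfree hA hB g hne m hm.ne' h

/-- the main theorem, for modules -/
theorem main2 (P : Type) [AddCommGroup P] [Module (MonoidAlgebra ℤ G) P]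
    (h1 : Module.Finite (MonoidAlgebra ℤ G) P) (h2 : Module.Projective (MonoidAlgebra ℤ G) P) :
    ∃ (n : ℕ) (E : Matrix (Fin n) (Fin n) (MonoidAlgebra ℤ G)) (m q r : ℕ),
      E * E = E ∧ Nonempty (P ≃ₗ[MonoidAlgebra ℤ G] RowSp E) ∧
      ∀ (k : Type) (j : Fin m → k), Function.Injective j → ∃ a b : Fin r → GF G k,
        Nonempty (↥(triIdeal a b) ≃ₗ[RR G k] (RowSp (E.map (io G k)) × (Fin q → RR G k))) ∧
        Module.Projective (RR G k) (triIdeal a b) ∧
        (SF (MonoidAlgebra ℤ G) P ↔ SF (RR G k) (triIdeal a b)) := by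
  obtain ⟨n, E, hE, ⟨e⟩⟩ := exists_idem P h1 h2
  obtain ⟨m, q, r, hm⟩ := main1 E hE
  refine ⟨n, E, m, q, r, hE, ⟨e⟩, fun k j hj => ?_⟩
  obtain ⟨a, b, ⟨f⟩⟩ := hm k j hj
  have hE' := io_idem (k := k) E hE
  have hpr := rowSp_projective (E.map (io G k)) hE'
  refine ⟨a, b, ⟨f⟩, Module.Projective.of_equiv f.symm, ?_⟩
  have h3 : SF (MonoidAlgebra ℤ G) P ↔ SF (MonoidAlgebra ℤ G) (RowSp E) :=
    ⟨SF.equiv e, SF.equiv e.symm⟩
  have h4 : SF (RR G k) (triIdeal a b) ↔ SF (RR G k) (RowSp (E.map (io G k)) × (Fin q → RR G k)) :=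
    ⟨SF.equiv f, SF.equiv f.symm⟩
  rw [h3, h4, SF.prod_iff, ← idemFree_iff E hE, ← idemFree_iff _ hE', idemFree_io]

end Pool.Agent.U674.TI
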