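import Pool.Agent.U674.TI.Reach

/-!
# The vectors are determined by the elements of the left ideal

A representation of `G * F` by triangular matrices shows that the map from vectors to elements of the
group ring is injective on the span of the relations.
-/

set_option autoImplicit false

namespace Pool.Agent.U674.TI

open MonoidAlgebra Monoid.Coprod

variable {G : Type} [Group G] {n : ℕ} {k : Type}

/-- the group -/
abbrev GF (G : Type) [Group G] (k : Type) : Type := Monoid.Coprod G (FreeGroup k)

/-- the group ring -/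
abbrev RR (G : Type) [Group G] (k : Type) : Type := MonoidAlgebra ℤ (GF G k)

/-- the rational group ring -/
abbrev QQ (G : Type) [Group G] (k : Type) : Type := MonoidAlgebra ℚ (GF G k)

/-- the inclusion of the group ring of `G` -/
noncomputable abbrev io (G : Type) [Group G] (k : Type) : MonoidAlgebra ℤ G →+* RR G k :=
  MonoidAlgebra.mapDomainRingHom ℤ (inl : G →* GF G k)

/-- rational coefficients -/
noncomputable abbrev jj (G : Type) [Group G] (k : Type) : RR G k →+* QQ G k :=
  MonoidAlgebra.mapRingHom (GF G k) (Int.castRingHom ℚ)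

theorem jj_inj : Function.Injective (jj G k) := by
  intro a b h
  apply MonoidAlgebra.coeff_injective
  ext m
  have h1 := congrArg (fun z : QQ G k => z.coeff m) h
  simp only [jj, MonoidAlgebra.coeff_mapRingHom] at h1
  exact Int.cast_injective h1

theorem jj_of (γ : GF G k) : jj G k (of ℤ _ γ) = of ℚ _ γ := by
  simp [jj]

/-- the free generators -/
def yy (G : Type) [Group G] (i : k) : GF G k := inr (FreeGroup.of i)

/-- the module -/
abbrev XX (G : Type) [Group G] (n : ℕ) (k : Type) : Type := (MM G n →₀ QQ G k) × ℚ × ℚ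

/-- multiplication in the first component -/
noncomputable def dg (n : ℕ) (γ : GF G k) : XX G n k ≃ₗ[ℚ] XX G n k where
  toFun x := (of ℚ _ γ • x.1, x.2)
  map_add' x y := by simp [smul_add]
  map_smul' q x := by
    apply Prod.ext
    · exact smul_comm _ _ _
    · rfl
  invFun x := (of ℚ _ γ⁻¹ • x.1, x.2)
  left_inv x := by
    apply Prod.ext
    · show of ℚ _ γ⁻¹ • of ℚ _ γ • x.1 = x.1
      rw [smul_smul, ← map_mul, inv_mul_cancel, map_one, one_smul]
    · rfl
  right_inv x := by
    apply Prod.ext
    · show of ℚ _ γ • of ℚ _ γ⁻¹ • x.1 = x.1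
      rw [smul_smul, ← map_mul, mul_inv_cancel, map_one, one_smul]
    · rfl

/-- multiplication in the first component, as a homomorphism -/
noncomputable def dgH (G : Type) [Group G] (n : ℕ) (k : Type) : GF G k →* (XX G n k ≃ₗ[ℚ] XX G n k) where
  toFun := dg n
  map_one' := by
    apply LinearEquiv.ext
    intro x
    apply Prod.ext
    · show of ℚ _ (1 : GF G k) • x.1 = x.1
      rw [map_one, one_smul]
    · rfl
  map_mul' a b := by
    apply LinearEquiv.ext
    intro x
    apply Prod.ext
    · show of ℚ _ (a * b) • x.1 = of ℚ _ a • of ℚ _ b • x.1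
      rw [smul_smul, ← map_mul]
    · rfl

/-- the action of a free generator -/
noncomputable def gn (i : k) (v : MM G n) (c : ℚ) (hc : c ≠ 0) :
    XX G n k ≃ₗ[ℚ] XX G n k where
  toFun x := (of ℚ _ (yy G i) • x.1 + x.2.1 • Finsupp.single v (1 : QQ G k), x.2.2, c * x.2.1)
  map_add' x y := by
    apply Prod.ext
    · simp only [Prod.fst_add, Prod.snd_add, smul_add, add_smul]
      abel
    · apply Prod.ext
      · rfl
      · simp [mul_add]
  map_smul' q x := by
    apply Prod.ext
    · simp only [Prod.smul_fst, Prod.smul_snd, smul_add, RingHom.id_apply, smul_eq_mul]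
      rw [smul_comm, mul_smul]
    · apply Prod.ext
      · rfl
      · simp only [Prod.smul_fst, Prod.smul_snd, smul_eq_mul, RingHom.id_apply]
        ring
  invFun x := (of ℚ _ (yy G i)⁻¹ • (x.1 - (x.2.2 / c) • Finsupp.single v (1 : QQ G k)),
    x.2.2 / c, x.2.1)
  left_inv x := by
    have h1 : c * x.2.1 / c = x.2.1 := by field_simp
    apply Prod.ext
    · show of ℚ _ (yy G i)⁻¹ • (of ℚ _ (yy G i) • x.1 + x.2.1 • Finsupp.single v (1 : QQ G k) -
        (c * x.2.1 / c) • Finsupp.single v (1 : QQ G k)) = x.1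
      rw [h1, add_sub_cancel_right, smul_smul, ← map_mul, inv_mul_cancel, map_one, one_smul]
    · apply Prod.ext
      · exact h1
      · rfl
  right_inv x := by
    have h1 : c * (x.2.2 / c) = x.2.2 := by field_simp
    apply Prod.ext
    · show of ℚ _ (yy G i) • (of ℚ _ (yy G i)⁻¹ • (x.1 - (x.2.2 / c) •
        Finsupp.single v (1 : QQ G k))) + (x.2.2 / c) • Finsupp.single v (1 : QQ G k) = x.1
      rw [smul_smul, ← map_mul, mul_inv_cancel, map_one, one_smul, sub_add_cancel]
    · apply Prod.ext
      · rfl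
      · exact h1

/-- the representation -/
noncomputable def rep (v : k → MM G n) (c : k → ℚ) (hc : ∀ i, c i ≠ 0) :
    GF G k →* (XX G n k ≃ₗ[ℚ] XX G n k) :=
  Monoid.Coprod.lift ((dgH G n k).comp inl) (FreeGroup.lift fun i => gn i (v i) (c i) (hc i))

section rep

variable (v : k → MM G n) (c : k → ℚ) (hc : ∀ i, c i ≠ 0)

theorem rep_inl (g : G) (x : XX G n k) :
    rep v c hc (inl g) x = (of ℚ _ (inl g : GF G k) • x.1, x.2) := by
  unfold rep
  rw [Monoid.Coprod.lift_apply_inl]
  rfl

theorem rep_yy (i : k) (x : XX G n k) :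
    rep v c hc (yy G i) x =
      (of ℚ _ (yy G i) • x.1 + x.2.1 • Finsupp.single (v i) (1 : QQ G k), x.2.2, c i * x.2.1) := by
  unfold rep yy
  rw [Monoid.Coprod.lift_apply_inr, FreeGroup.lift_apply_of]
  rfl

theorem rep_w (γ : GF G k) (w : MM G n →₀ QQ G k) :
    rep v c hc γ (w, 0, 0) = (of ℚ _ γ • w, 0, 0) := by
  have hy : ∀ (i : k) (w : MM G n →₀ QQ G k),
      rep v c hc (yy G i) (w, 0, 0) = (of ℚ _ (yy G i) • w, 0, 0) := by
    intro i w
    rw [rep_yy]
    simp
  have hmul : ∀ a b : GF G k,
      (∀ w : MM G n →₀ QQ G k, rep v c hc a (w, 0, 0) = (of ℚ _ a • w, 0, 0)) →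
      (∀ w : MM G n →₀ QQ G k, rep v c hc b (w, 0, 0) = (of ℚ _ b • w, 0, 0)) →
      ∀ w : MM G n →₀ QQ G k, rep v c hc (a * b) (w, 0, 0) = (of ℚ _ (a * b) • w, 0, 0) := by
    intro a b ha hb w
    rw [map_mul, LinearEquiv.mul_apply, hb, ha, smul_smul, ← map_mul]
  have hinv : ∀ a : GF G k,
      (∀ w : MM G n →₀ QQ G k, rep v c hc a (w, 0, 0) = (of ℚ _ a • w, 0, 0)) →
      ∀ w : MM G n →₀ QQ G k, rep v c hc a⁻¹ (w, 0, 0) = (of ℚ _ a⁻¹ • w, 0, 0) := by
    intro a ha w
    have h1 : rep v c hc a (of ℚ _ a⁻¹ • w, 0, 0) = (w, 0, 0) := by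
      rw [ha, smul_smul, ← map_mul, mul_inv_cancel, map_one, one_smul]
    rw [← h1, map_inv, ← LinearEquiv.mul_apply, inv_mul_cancel]
    rfl
  revert w
  induction γ using Monoid.Coprod.induction_on with
  | inl g =>
    intro w
    rw [rep_inl]
  | inr z =>
    induction z using FreeGroup.induction_on with
    | C1 =>
      intro w
      rw [map_one, map_one, map_one, one_smul]
      rfl
    | of i => exact hy i
    | inv_of i _ =>
      rw [map_inv]
      exact hinv _ (hy i)
    | mul a b ha hb =>
      rw [map_mul]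
      exact hmul _ _ ha hb
  | mul a b ha hb => exact hmul a b ha hb

/-- the action of the group ring -/
noncomputable def act : RR G k →+* Module.End ℚ (XX G n k) :=
  (MonoidAlgebra.lift ℤ (Module.End ℚ (XX G n k)) (GF G k)
    ((LinearEquiv.automorphismGroup.toLinearMapMonoidHom).comp (rep v c hc))).toRingHom

theorem act_of (γ : GF G k) (x : XX G n k) : act v c hc (of ℤ _ γ) x = rep v c hc γ x := by
  unfold act
  have := MonoidAlgebra.lift_of (R := ℤ)
    ((LinearEquiv.automorphismGroup.toLinearMapMonoidHom).comp (rep v c hc)) γ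
  exact congrArg (fun f : Module.End ℚ (XX G n k) => f x) this

theorem act_w (r : RR G k) (w : MM G n →₀ QQ G k) :
    act v c hc r (w, 0, 0) = (jj G k r • w, 0, 0) := by
  refine MonoidAlgebra.induction_on
    (motive := fun r => act v c hc r (w, 0, 0) = (jj G k r • w, 0, 0)) r (fun γ => ?_)
    (fun a b ha hb => ?_) (fun m a ha => ?_)
  · rw [act_of, rep_w, jj_of]
  · rw [map_add, LinearMap.add_apply, ha, hb, map_add, add_smul]
    simp
  · rw [map_zsmul, LinearMap.smul_apply, ha, map_zsmul]
    apply Prod.ext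
    · exact (smul_assoc m (jj G k a) w).symm
    · simp

/-- rational coefficients for vectors -/
noncomputable def jW (c : MM G n →₀ RR G k) : MM G n →₀ QQ G k :=
  Finsupp.mapRange (jj G k) (map_zero _) c

theorem jW_inj : Function.Injective (jW : (MM G n →₀ RR G k) → _) :=
  Finsupp.mapRange_injective _ (map_zero _) jj_inj

theorem jW_add (a b : MM G n →₀ RR G k) : jW (a + b) = jW a + jW b :=
  Finsupp.mapRange_add (fun x y => map_add _ x y) a b

theorem jW_single (x : MM G n) (a : RR G k) :
    jW (Finsupp.single x a) = Finsupp.single x (jj G k a) := by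
  unfold jW
  rw [Finsupp.mapRange_single]

theorem jW_smul (r : RR G k) (a : MM G n →₀ RR G k) : jW (r • a) = jj G k r • jW a := by
  ext1 x
  simp [jW]

theorem jW_zero : jW (0 : MM G n →₀ RR G k) = 0 := by
  unfold jW
  exact Finsupp.mapRange_zero

/-- the elements of the group ring -/
noncomputable def th (idx : MM G n → k) : (MM G n →₀ RR G k) →ₗ[RR G k] RR G k :=
  Finsupp.linearCombination (RR G k) fun x => of ℤ _ (yy G (idx x))

theorem th_single (idx : MM G n → k) (x : MM G n) (a : RR G k) :
    th idx (Finsupp.single x a) = a * of ℤ _ (yy G (idx x)) := by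
  simp [th, Finsupp.linearCombination_single]

theorem io_uu (g : G) : io G k (uu g) = of ℤ _ (inl g : GF G k) := by
  simp [io, uu]

/-- the value of the three terms -/
theorem act_vec (idx : MM G n → k) (hv : ∀ i, c i = (aug G (v i).2 : ℚ)) (l : Rel G n)
    (hx : v (idx l.x) = l.x) (hy : v (idx l.y) = l.y) (hw : v (idx l.w) = l.w)
    (h0 : l.val.2 = 0) :
    act v c hc (th idx (vec (io G k) l)) (0, 1, 0) = (jW (vec (io G k) l), 0, 0) := by
  have key : ∀ (x : MM G n) (g : G), v (idx x) = x →
      act v c hc (th idx (Finsupp.single x (io G k (uu g)))) (0, 1, 0) =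
        (jW (Finsupp.single x (io G k (uu g))), 0, (aug G x.2 : ℚ)) := by
    intro x g hx
    rw [th_single, map_mul, Module.End.mul_apply, act_of, rep_yy, io_uu, act_of, rep_inl, jW_single,
      jj_of, hx, hv, hx]
    simp
  have h1 : (aug G l.x.2 : ℚ) + aug G l.y.2 + aug G l.w.2 = 0 := by
    have h2 := congrArg (aug G) h0
    simp only [Rel.val, Prod.snd_add, Prod.smul_snd, smul_eq_mul, map_add, map_mul, aug_uu, one_mul,
      map_zero] at h2
    exact_mod_cast h2
  have hx1 := key l.x 1 hx
  rw [show io G k (uu (1 : G)) = 1 by rw [io_uu, map_one, map_one]] at hx1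
  unfold vec
  rw [map_add, map_add, map_add, map_add, LinearMap.add_apply, LinearMap.add_apply, hx1,
    key l.y l.g hy, key l.w l.h hw, jW_add, jW_add]
  apply Prod.ext
  · simp
  · apply Prod.ext
    · simp
    · simpa using h1

include hc in
/-- injectivity on the span -/
theorem th_inj (idx : MM G n → k) (hv : ∀ i, c i = (aug G (v i).2 : ℚ)) {ι' : Type}
    (l : ι' → Rel G n) (hx : ∀ i, v (idx (l i).x) = (l i).x) (hy : ∀ i, v (idx (l i).y) = (l i).y)
    (hw : ∀ i, v (idx (l i).w) = (l i).w) (h0 : ∀ i, (l i).val.2 = 0) (a : MM G n →₀ RR G k)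
    (ha : a ∈ Submodule.span (RR G k) (Set.range fun i => vec (io G k) (l i)))
    (hth : th idx a = 0) : a = 0 := by
  have key : ∀ a ∈ Submodule.span (RR G k) (Set.range fun i => vec (io G k) (l i)),
      act v c hc (th idx a) (0, 1, 0) = (jW a, 0, 0) := by
    intro a ha
    induction ha using Submodule.span_induction with
    | mem a ha =>
      obtain ⟨i, rfl⟩ := ha
      exact act_vec v c hc idx hv (l i) (hx i) (hy i) (hw i) (h0 i)
    | zero =>
      rw [map_zero, map_zero, jW_zero]
      rfl
    | add a b _ _ ha hb =>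
      rw [map_add, map_add, LinearMap.add_apply, ha, hb, jW_add]
      simp
    | smul r a _ ha =>
      rw [map_smul, smul_eq_mul, map_mul, Module.End.mul_apply, ha, act_w, jW_smul]
  have h1 := key a ha
  rw [hth, map_zero] at h1
  have h2 : jW a = 0 := by
    have := congrArg Prod.fst h1
    exact this.symm
  apply jW_inj
  rw [h2, jW_zero]

end rep

end Pool.Agent.U674.TI
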