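import Mathlib

/-!
# Trinomial presentations

Relations `x + g y + h w` between elements of `(ℤG)^n × ℤG`.
-/

set_option autoImplicit false

namespace Pool.Agent.U674.TI

open MonoidAlgebra

variable {G : Type} [Group G] {n : ℕ}

/-- the free module of rank `n + 1` -/
abbrev MM (G : Type) [Group G] (n : ℕ) : Type :=
  (Fin n → MonoidAlgebra ℤ G) × MonoidAlgebra ℤ G

/-- group elements as units of the group ring -/
noncomputable abbrev uu (g : G) : MonoidAlgebra ℤ G := MonoidAlgebra.of ℤ G g

/-- the augmentation -/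
noncomputable def aug (G : Type) [Group G] : MonoidAlgebra ℤ G →+* ℤ :=
  (MonoidAlgebra.lift ℤ ℤ G (1 : G →* ℤ)).toRingHom

@[simp] theorem aug_uu (g : G) : aug G (uu g) = 1 := by
  simp [aug, uu]

@[simp] theorem aug_single (g : G) : aug G (MonoidAlgebra.single g 1) = 1 := aug_uu g

/-- a relation `x + g y + h w` -/
structure Rel (G : Type) [Group G] (n : ℕ) where
  x : MM G n
  y : MM G n
  w : MM G n
  g : G
  h : G

/-- the value of the relation -/
noncomputable def Rel.val (l : Rel G n) : MM G n := l.x + uu l.g • l.y + uu l.h • l.w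

section ext

variable {R : Type} [Ring R] (ι : MonoidAlgebra ℤ G →+* R)

/-- change of rings on vectors -/
noncomputable def ext (x : MM G n) : (Fin n → R) × R := (fun i => ι (x.1 i), ι x.2)

theorem ext_add (x y : MM G n) : ext ι (x + y) = ext ι x + ext ι y := by
  ext i <;> simp [ext]

theorem ext_neg (x : MM G n) : ext ι (-x) = -ext ι x := by
  ext i <;> simp [ext]

theorem ext_zero : ext ι (0 : MM G n) = 0 := by
  ext i <;> simp [ext]

theorem ext_smul (a : MonoidAlgebra ℤ G) (x : MM G n) : ext ι (a • x) = ι a • ext ι x := by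
  ext i <;> simp [ext]

/-- the relation as a vector -/
noncomputable def vec (l : Rel G n) : MM G n →₀ R :=
  Finsupp.single l.x 1 + Finsupp.single l.y (ι (uu l.g)) + Finsupp.single l.w (ι (uu l.h))

/-- the evaluation of vectors -/
noncomputable def sm (n : ℕ) : (MM G n →₀ R) →ₗ[R] (Fin n → R) × R :=
  Finsupp.linearCombination R (ext ι)

theorem sm_single (x : MM G n) (a : R) : sm ι n (Finsupp.single x a) = a • ext ι x := by
  simp [sm, Finsupp.linearCombination_single]

theorem sm_vec (l : Rel G n) : sm ι n (vec ι l) = ext ι l.val := by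
  unfold vec Rel.val
  rw [map_add, map_add, sm_single, sm_single, sm_single, ext_add, ext_add, ext_smul, ext_smul,
    one_smul]

end ext

/-- the last unit vector -/
noncomputable def zz (G : Type) [Group G] (n : ℕ) : MM G n := (0, 1)

/-- the other basis vectors, shifted by the last one -/
noncomputable def ee (j : Fin n) : MM G n := (Pi.single j 1, 1)

/-- a good system of vectors and relations -/
structure Good (V : Set (MM G n)) (q : ℕ) (l : Fin q → Rel G n) : Prop where
  fin : V.Finite
  hz : zz G n ∈ V
  he : ∀ j, ee j ∈ V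
  haug : ∀ x ∈ V, aug G x.2 % 3 = 1
  hx : ∀ i, (l i).x ∈ V
  hy : ∀ i, (l i).y ∈ V
  hw : ∀ i, (l i).w ∈ V
  hval : ∀ i, (l i).val = 0
  li : ∀ (R : Type) [Ring R] (ι : MonoidAlgebra ℤ G →+* R),
    LinearIndependent R fun i => vec ι (l i)
  span : ∀ (R : Type) [Ring R] (ι : MonoidAlgebra ℤ G →+* R) (c : MM G n →₀ R),
    (c.support : Set (MM G n)) ⊆ V → sm ι n c = 0 →
      c ∈ Submodule.span R (Set.range fun i => vec ι (l i))

/-- adding a new element -/
theorem Good.extend {V : Set (MM G n)} {q : ℕ} {l : Fin q → Rel G n} (H : Good V q l)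
    {x y : MM G n} (hx : x ∈ V) (hy : y ∈ V) (g h : G) (ht : -(uu g • x + uu h • y) ∉ V) :
    Good (insert (-(uu g • x + uu h • y)) V) (q + 1)
      (Fin.cons ⟨-(uu g • x + uu h • y), x, y, g, h⟩ l) := by
  classical
  set t := -(uu g • x + uu h • y) with hte
  have hxt : x ≠ t := fun h => ht (h ▸ hx)
  have hyt : y ≠ t := fun h => ht (h ▸ hy)
  have hval0 : (⟨t, x, y, g, h⟩ : Rel G n).val = 0 := by
    simp only [Rel.val, hte]
    abel
  have hcoef : ∀ (R : Type) [Ring R] (ι : MonoidAlgebra ℤ G →+* R),
      vec ι (⟨t, x, y, g, h⟩ : Rel G n) t = 1 := by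
    intro R _ ι
    simp [vec, hxt, hyt]
  have hsup : ∀ (R : Type) [Ring R] (ι : MonoidAlgebra ℤ G →+* R),
      ∀ c ∈ Submodule.span R (Set.range fun i => vec ι (l i)), c t = 0 := by
    intro R _ ι c hc
    induction hc using Submodule.span_induction with
    | mem c hc =>
      obtain ⟨i, rfl⟩ := hc
      have h1 : (l i).x ≠ t := fun h => ht (h ▸ H.hx i)
      have h2 : (l i).y ≠ t := fun h => ht (h ▸ H.hy i)
      have h3 : (l i).w ≠ t := fun h => ht (h ▸ H.hw i)
      simp [vec, h1, h2, h3]
    | zero => rfl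
    | add a b _ _ ha hb => rw [Finsupp.add_apply, ha, hb, add_zero]
    | smul r a _ ha => rw [Finsupp.smul_apply, ha, smul_zero]
  have hrange : ∀ (R : Type) [Ring R] (ι : MonoidAlgebra ℤ G →+* R),
      (fun i => vec ι ((Fin.cons (⟨t, x, y, g, h⟩ : Rel G n) l : Fin (q + 1) → Rel G n) i)) =
        Fin.cons (vec ι (⟨t, x, y, g, h⟩ : Rel G n)) (fun i => vec ι (l i)) := by
    intro R _ ι
    funext i
    refine Fin.cases ?_ (fun j => ?_) i <;> simp
  refine ⟨H.fin.insert _, Set.mem_insert_of_mem _ H.hz, fun j => Set.mem_insert_of_mem _ (H.he j),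
    ?_, ?_, ?_, ?_, ?_, ?_, ?_⟩
  · intro z hz
    rcases Set.mem_insert_iff.1 hz with rfl | hz
    · have h1 := H.haug x hx
      have h2 := H.haug y hy
      have h3 : aug G t.2 = -(aug G x.2 + aug G y.2) := by
        rw [hte]
        simp [aug_single]
        try abel
      rw [h3]
      omega
    · exact H.haug z hz
  · intro i
    refine Fin.cases ?_ (fun j => ?_) i
    · exact Set.mem_insert _ _
    · exact Set.mem_insert_of_mem _ (H.hx j)
  · intro i
    refine Fin.cases ?_ (fun j => ?_) i
    · exact Set.mem_insert_of_mem _ hx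
    · exact Set.mem_insert_of_mem _ (H.hy j)
  · intro i
    refine Fin.cases ?_ (fun j => ?_) i
    · exact Set.mem_insert_of_mem _ hy
    · exact Set.mem_insert_of_mem _ (H.hw j)
  · intro i
    refine Fin.cases ?_ (fun j => ?_) i
    · exact hval0
    · exact H.hval j
  · intro R _ ι
    rw [hrange]
    refine LinearIndependent.finCons' _ _ (H.li R ι) ?_
    intro c y' hy' h0
    have h1 := congrArg (fun f : MM G n →₀ R => f t) h0
    simp only [Finsupp.add_apply, Finsupp.smul_apply, hcoef, hsup R ι y' hy', smul_eq_mul, mul_one,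
      add_zero, Finsupp.zero_apply] at h1
    exact h1
  · intro R _ ι c hc h0
    rw [hrange]
    have h1 : c - c t • vec ι (⟨t, x, y, g, h⟩ : Rel G n) ∈
        Submodule.span R (Set.range fun i => vec ι (l i)) := by
      apply H.span R ι
      · intro z hz
        have hz' := Finsupp.mem_support_iff.1 (Finset.mem_coe.1 hz)
        by_contra hzV
        have hzx : x ≠ z := fun h => hzV (h ▸ hx)
        have hzy : y ≠ z := fun h => hzV (h ▸ hy)
        by_cases hzt : z = t
        · subst hzt
          apply hz'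
          rw [Finsupp.sub_apply, Finsupp.smul_apply, hcoef]
          simp
        · apply hz'
          have h2 : c z = 0 := by
            by_contra h2
            rcases Set.mem_insert_iff.1 (hc (Finset.mem_coe.2 (Finsupp.mem_support_iff.2 h2)))
              with h3 | h3
            · exact hzt h3
            · exact hzV h3
          rw [Finsupp.sub_apply, Finsupp.smul_apply, h2]
          have h3 : vec ι (⟨t, x, y, g, h⟩ : Rel G n) z = 0 := by
            simp [vec, hzx, hzy, Ne.symm hzt]
          rw [h3, smul_zero, sub_zero]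
      · rw [map_sub, map_smul, sm_vec, h0, hval0, ext_zero, smul_zero, sub_zero]
    have h2 : Submodule.span R (Set.range fun i => vec ι (l i)) ≤
        Submodule.span R (Set.range (Fin.cons (vec ι (⟨t, x, y, g, h⟩ : Rel G n))
          (fun i => vec ι (l i)) : Fin (q + 1) → (MM G n →₀ R))) := by
      apply Submodule.span_mono
      rintro _ ⟨i, rfl⟩
      exact ⟨i.succ, by simp⟩
    have h3 : c = (c - c t • vec ι (⟨t, x, y, g, h⟩ : Rel G n)) +
        c t • vec ι (⟨t, x, y, g, h⟩ : Rel G n) := by abel
    rw [h3]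
    refine Submodule.add_mem _ (h2 h1) (Submodule.smul_mem _ _ (Submodule.subset_span ⟨0, ?_⟩))
    simp

/-- `x` can be added to every good system -/
def Rch (x : MM G n) : Prop :=
  ∀ (V : Set (MM G n)) (q : ℕ) (l : Fin q → Rel G n), Good V q l →
    ∃ (V' : Set (MM G n)) (q' : ℕ) (l' : Fin q' → Rel G n), V ⊆ V' ∧ Good V' q' l' ∧ x ∈ V'

theorem rch_z : Rch (zz G n) := fun V q l h => ⟨V, q, l, subset_rfl, h, h.hz⟩

theorem rch_e (j : Fin n) : Rch (ee j : MM G n) := fun V q l h => ⟨V, q, l, subset_rfl, h, h.he j⟩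

theorem rch_op {x y : MM G n} (hx : Rch x) (hy : Rch y) (g h : G) :
    Rch (-(uu g • x + uu h • y)) := by
  intro V q l H
  obtain ⟨V1, q1, l1, h1, H1, hx1⟩ := hx V q l H
  obtain ⟨V2, q2, l2, h2, H2, hy2⟩ := hy V1 q1 l1 H1
  by_cases ht : -(uu g • x + uu h • y) ∈ V2
  · exact ⟨V2, q2, l2, h1.trans h2, H2, ht⟩
  · exact ⟨_, _, _, (h1.trans h2).trans (Set.subset_insert _ _),
      H2.extend (h2 hx1) hy2 g h ht, Set.mem_insert _ _⟩

theorem rch_heap {x y w : MM G n} (hx : Rch x) (hy : Rch y) (hw : Rch w) (g h : G) :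
    Rch (x + uu g • y - uu h • w) := by
  have h1 := rch_op (rch_op hx hy 1 g) hw 1 h
  have h2 : -(uu (1 : G) • -(uu (1 : G) • x + uu g • y) + uu h • w) =
      x + uu g • y - uu h • w := by
    rw [show (uu (1 : G)) = 1 from map_one _, one_smul, one_smul]
    abel
  rwa [h2] at h1

/-- the differences -/
def HH (G : Type) [Group G] (n : ℕ) : AddSubgroup (MM G n) where
  carrier := {d | ∀ x, Rch x → Rch (x + d)}
  zero_mem' := by
    intro x hx
    rwa [add_zero]
  add_mem' := by
    intro a b ha hb x hx
    rw [← add_assoc]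
    exact hb _ (ha _ hx)
  neg_mem' := by
    intro a ha x hx
    have h1 := rch_heap hx hx (ha x hx) 1 1
    rw [show (uu (1 : G)) = 1 from map_one _, one_smul, one_smul] at h1
    have h2 : x + x - (x + a) = x + -a := by abel
    rwa [h2] at h1

theorem single_mem (j : Fin n) (g : G) : ((Pi.single j (uu g), 0) : MM G n) ∈ HH G n := by
  intro x hx
  have h1 := rch_heap hx (rch_e j) rch_z g g
  have h2 : x + uu g • (ee j : MM G n) - uu g • zz G n = x + ((Pi.single j (uu g), 0) : MM G n) := by
    rw [add_sub_assoc]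
    congr 1
    apply Prod.ext
    · funext i
      by_cases hij : i = j
      · subst hij
        simp [ee, zz]
      · simp [ee, zz, Pi.single_eq_of_ne hij]
    · simp [ee, zz]
  rwa [h2] at h1

theorem left_mem (v : Fin n → MonoidAlgebra ℤ G) : ((v, 0) : MM G n) ∈ HH G n := by
  classical
  have h1 : ∀ (j : Fin n) (a : MonoidAlgebra ℤ G), ((Pi.single j a, 0) : MM G n) ∈ HH G n := by
    intro j a
    refine MonoidAlgebra.induction_on (motive := fun a => ((Pi.single j a, 0) : MM G n) ∈ HH G n) a
      (fun g => single_mem j g) (fun x y hx hy => ?_) (fun r x hx => ?_)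
    · have : ((Pi.single j (x + y), 0) : MM G n) = (Pi.single j x, 0) + (Pi.single j y, 0) := by
        rw [Pi.single_add]
        simp
      rw [this]
      exact add_mem hx hy
    · have : ((Pi.single j (r • x), 0) : MM G n) = r • ((Pi.single j x, 0) : MM G n) := by
        rw [Pi.single_smul]
        simp
      rw [this]
      exact AddSubgroup.zsmul_mem _ hx r
  have h2 : ((v, 0) : MM G n) = ∑ j, ((Pi.single j (v j), 0) : MM G n) := by
    apply Prod.ext
    · rw [Prod.fst_sum]
      exact (Finset.univ_sum_single v).symm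
    · rw [Prod.snd_sum]
      simp
  rw [h2]
  exact sum_mem fun j _ => h1 j _

/-- the elements which are used -/
noncomputable def tt (ρ : Fin n → MonoidAlgebra ℤ G) : MM G n := (-ρ, -2)

theorem rch_tt (ρ : Fin n → MonoidAlgebra ℤ G) : Rch (tt ρ) := by
  have h1 := rch_op (rch_z (G := G) (n := n)) rch_z 1 1
  have h2 := left_mem (-ρ) _ h1
  have h3 : -(uu (1 : G) • zz G n + uu (1 : G) • zz G n) + ((-ρ, 0) : MM G n) = tt ρ := by
    rw [show (uu (1 : G)) = 1 from map_one _, one_smul]
    apply Prod.ext
    · simp [zz, tt]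
    · simp only [zz, tt, Prod.snd_add, Prod.snd_neg, add_zero]
      norm_num
  rwa [h3] at h2

/-- the initial system -/
theorem good_base : Good ({zz G n} ∪ Set.range (ee : Fin n → MM G n)) 0 Fin.elim0 := by
  classical
  refine ⟨(Set.finite_singleton _).union (Set.finite_range _), Or.inl rfl, fun j => Or.inr ⟨j, rfl⟩,
    ?_, fun i => i.elim0, fun i => i.elim0, fun i => i.elim0, fun i => i.elim0, ?_, ?_⟩
  · rintro x (rfl | ⟨j, rfl⟩)
    · simp [zz]
    · simp [ee]
  · intro R _ ι
    exact linearIndependent_empty_type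
  · intro R _ ι c hc h0
    have hinj : Function.Injective (ee : Fin n → MM G n) := by
      intro i j hij
      have h1 := congrArg (fun x : MM G n => x.1 i) hij
      simp only [ee, Pi.single_eq_same] at h1
      by_contra hne
      rw [Pi.single_eq_of_ne hne] at h1
      exact one_ne_zero h1
    have hez : ∀ j : Fin n, (ee j : MM G n) ≠ zz G n := by
      intro j h
      have h1 := congrArg (fun x : MM G n => x.1 j) h
      simp only [ee, zz, Pi.single_eq_same] at h1
      exact one_ne_zero h1
    have hsub : c.support ⊆ insert (zz G n) (Finset.univ.image (ee : Fin n → MM G n)) := by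
      intro x hx
      rcases hc (Finset.mem_coe.2 hx) with h | ⟨j, h⟩
      · rw [Set.mem_singleton_iff] at h
        rw [h]
        exact Finset.mem_insert_self _ _
      · rw [← h]
        exact Finset.mem_insert_of_mem (Finset.mem_image_of_mem _ (Finset.mem_univ _))
    have h1 : sm ι n c = c (zz G n) • ext ι (zz G n) + ∑ j, c (ee j) • ext ι (ee j) := by
      unfold sm
      rw [Finsupp.linearCombination_apply, Finsupp.sum_of_support_subset c hsub _ (by simp),
        Finset.sum_insert, Finset.sum_image (fun a _ b _ h => hinj h)]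
      intro h
      obtain ⟨j, _, hj⟩ := Finset.mem_image.1 h
      exact hez j hj
    rw [h0] at h1
    have h2 : ∀ j, c (ee j) = 0 := by
      intro j
      have h3 := congrArg (fun x : (Fin n → R) × R => x.1 j) h1
      have h4 : ∀ i : Fin n, (c (ee i) • ext ι (ee i)).1 j = if i = j then c (ee i) else 0 := by
        intro i
        by_cases hij : i = j
        · subst hij
          simp [ext, ee]
        · simp [ext, ee, Pi.single_eq_of_ne (Ne.symm hij), hij]
      have h5 : (c (zz G n) • ext ι (zz G n)).1 j = 0 := by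
        simp [ext, zz]
      simp only [Prod.fst_add, Pi.add_apply, Prod.fst_sum, Finset.sum_apply, h4, h5,
        Prod.fst_zero, Pi.zero_apply, zero_add, Finset.sum_ite_eq', Finset.mem_univ, if_true] at h3
      exact h3.symm
    have h4 : c (zz G n) = 0 := by
      have h3 := congrArg (fun x : (Fin n → R) × R => x.2) h1
      simp only [h2, zero_smul, Finset.sum_const_zero, add_zero] at h3
      simpa [ext, zz] using h3.symm
    have h5 : c = 0 := by
      ext x
      by_contra h
      have hx := hsub (Finsupp.mem_support_iff.2 h)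
      rcases Finset.mem_insert.1 hx with rfl | hx
      · exact h h4
      · obtain ⟨j, _, rfl⟩ := Finset.mem_image.1 hx
        exact h (h2 j)
    rw [h5]
    exact zero_mem _

/-- a good system which contains prescribed elements -/
theorem exists_good {m : ℕ} (ρ : Fin m → Fin n → MonoidAlgebra ℤ G) :
    ∃ (V : Set (MM G n)) (q : ℕ) (l : Fin q → Rel G n), Good V q l ∧ ∀ k, tt (ρ k) ∈ V := by
  classical
  have h : ∀ s : Finset (Fin m), ∃ (V : Set (MM G n)) (q : ℕ) (l : Fin q → Rel G n),
      Good V q l ∧ ∀ k ∈ s, tt (ρ k) ∈ V := by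
    intro s
    induction s using Finset.induction_on with
    | empty => exact ⟨_, _, _, good_base, by simp⟩
    | insert a s _ ih =>
      obtain ⟨V, q, l, H, hs⟩ := ih
      obtain ⟨V', q', l', h1, H', h2⟩ := rch_tt (ρ a) V q l H
      refine ⟨V', q', l', H', fun k hk => ?_⟩
      rcases Finset.mem_insert.1 hk with rfl | hk
      · exact h2
      · exact h1 (hs k hk)
  obtain ⟨V, q, l, H, hs⟩ := h Finset.univ
  exact ⟨V, q, l, H, fun k => hs k (Finset.mem_univ _)⟩

end Pool.Agent.U674.TI
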